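import Mathlib

set_option autoImplicit false

open Set Topology
open scoped NNReal

namespace Pool.Agent.K9h93.Bike

/-- Global solutions of the scalar equation `θ' = A sin θ + B cos θ`. -/
theorem exists_solution {A B : ℝ → ℝ} (hA : Continuous A) (hB : Continuous B) (x : ℝ) :
    ∃ θ : ℝ → ℝ, θ 0 = x ∧
      ∀ t, HasDerivAt θ (A t * Real.sin (θ t) + B t * Real.cos (θ t)) t := by
  set f : ℝ → ℝ → ℝ := fun t y => A t * Real.sin y + B t * Real.cos y with hf
  have hbd : ∀ a : ℝ, ∃ L : ℝ≥0, ∀ t ∈ Icc (-a) a, |A t| + |B t| ≤ L := by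
    intro a
    have hc : ContinuousOn (fun t => |A t| + |B t|) (Icc (-a) a) := by fun_prop
    obtain ⟨C, hC⟩ := (isCompact_Icc.bddAbove_image hc)
    refine ⟨⟨max C 0, le_max_right _ _⟩, fun t ht => ?_⟩
    exact (hC (mem_image_of_mem _ ht)).trans (le_max_left _ _)
  choose L hL using hbd
  have hnorm : ∀ a t, t ∈ Icc (-a) a → ∀ y, ‖f t y‖ ≤ L a := by
    intro a t ht y
    refine le_trans ?_ (hL a t ht)
    rw [Real.norm_eq_abs]
    have h1 : |A t * Real.sin y| ≤ |A t| := by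
      rw [abs_mul]; exact mul_le_of_le_one_right (abs_nonneg _) (Real.abs_sin_le_one _)
    have h2 : |B t * Real.cos y| ≤ |B t| := by
      rw [abs_mul]; exact mul_le_of_le_one_right (abs_nonneg _) (Real.abs_cos_le_one _)
    exact (abs_add_le _ _).trans (add_le_add h1 h2)
  have hlip : ∀ a t, t ∈ Icc (-a) a → LipschitzWith (L a) (f t) := by
    intro a t ht
    apply LipschitzWith.of_dist_le_mul
    intro y z
    rw [Real.dist_eq, Real.dist_eq]
    have h1 : |Real.sin y - Real.sin z| ≤ |y - z| := Real.abs_sin_sub_sin_le y z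
    have h2 : |Real.cos y - Real.cos z| ≤ |y - z| := Real.abs_cos_sub_cos_le y z
    have h3 : f t y - f t z = A t * (Real.sin y - Real.sin z) + B t * (Real.cos y - Real.cos z) := by
      simp only [hf]; ring
    rw [h3]
    calc |A t * (Real.sin y - Real.sin z) + B t * (Real.cos y - Real.cos z)|
        ≤ |A t| * |Real.sin y - Real.sin z| + |B t| * |Real.cos y - Real.cos z| := by
          rw [← abs_mul, ← abs_mul]; exact abs_add_le _ _
      _ ≤ |A t| * |y - z| + |B t| * |y - z| := by gcongr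
      _ = (|A t| + |B t|) * |y - z| := by ring
      _ ≤ L a * |y - z| := by
          gcongr; exact hL a t ht
  have hloc : ∀ a : ℝ, 0 < a → ∃ γ : ℝ → ℝ, γ 0 = x ∧
      ∀ t ∈ Ioo (-a) a, HasDerivAt γ (f t (γ t)) t := by
    intro a ha
    have hP : IsPicardLindelof f (tmin := -a) (tmax := a)
        ⟨0, by constructor <;> linarith⟩ x (L a * ⟨a, ha.le⟩ : ℝ≥0) 0 (L a) (L a) := by
      refine ⟨fun t ht => (hlip a t ht).lipschitzOnWith, fun y _ => ?_,
        fun t ht y _ => hnorm a t ht y, ?_⟩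
      · simp only [hf]; fun_prop
      · simp only [NNReal.coe_mul, NNReal.coe_mk, sub_zero, zero_sub, neg_neg, max_self,
          NNReal.coe_zero]
        exact le_refl _
    obtain ⟨γ, h0, hγ⟩ := hP.exists_eq_forall_mem_Icc_hasDerivWithinAt₀
    exact ⟨γ, h0, fun t ht => (hγ t ⟨ht.1.le, ht.2.le⟩).hasDerivAt (Icc_mem_nhds ht.1 ht.2)⟩
  choose! γ h0 hγ using hloc
  have huniq : ∀ a b : ℝ, 0 < a → a ≤ b → EqOn (γ a) (γ b) (Ioo (-a) a) := by
    intro a b ha hab
    apply ODE_solution_unique_of_mem_Ioo (v := f) (s := fun _ => univ) (K := L a) (t₀ := 0)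
      (fun t ht => (hlip a t ⟨ht.1.le, ht.2.le⟩).lipschitzOnWith) ⟨by linarith, ha⟩
    · intro t ht
      exact ⟨hγ a ha t ht, mem_univ _⟩
    · intro t ht
      exact ⟨hγ b (by linarith) t ⟨by linarith [ht.1], by linarith [ht.2]⟩, mem_univ _⟩
    · rw [h0 a ha, h0 b (by linarith)]
  refine ⟨fun t => γ (|t| + 1) t, ?_, ?_⟩
  · simp only [abs_zero, zero_add]
    exact h0 1 one_pos
  · intro t
    have ht : t ∈ Ioo (-(|t| + 1)) (|t| + 1) := by
      rw [mem_Ioo, ← abs_lt]; linarith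
    have h1 := hγ (|t| + 1) (by positivity) t ht
    refine h1.congr_of_eventuallyEq ?_
    filter_upwards [Ioo_mem_nhds ht.1 ht.2] with s hs
    rcases le_total (|s| + 1) (|t| + 1) with h | h
    · exact huniq (|s| + 1) (|t| + 1) (by positivity) h
        (by rw [mem_Ioo, ← abs_lt]; linarith)
    · exact (huniq (|t| + 1) (|s| + 1) (by positivity) h hs).symm

/-- Integrating-factor comparison: if `y' = g - h y` with `g ≥ 0` on `[a,b]`, then
`e^{∫h} y` is monotone on `[a,b]`. -/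
theorem lin_mono {y g h : ℝ → ℝ} {a b : ℝ} (hh : Continuous h)
    (hy : ∀ t, HasDerivAt y (g t - h t * y t) t) (hg : ∀ t ∈ Ioo a b, 0 ≤ g t) :
    ∃ E : ℝ → ℝ, (∀ t, 0 < E t) ∧ MonotoneOn (fun t => E t * y t) (Icc a b) ∧
      ∀ t, HasDerivAt (fun t => E t * y t) (E t * g t) t := by
  let H : ℝ → ℝ := fun s => ∫ u in (0:ℝ)..s, h u
  have hH : ∀ s, HasDerivAt H (h s) s := fun s => (hh.integral_hasStrictDerivAt 0 s).hasDerivAt
  have hd : ∀ t, HasDerivAt (fun t => Real.exp (H t) * y t) (Real.exp (H t) * g t) t := by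
    intro t
    refine ((hH t).exp.mul (hy t)).congr_deriv ?_
    ring
  refine ⟨fun t => Real.exp (H t), fun t => Real.exp_pos _, ?_, hd⟩
  apply monotoneOn_of_deriv_nonneg (convex_Icc a b)
  · exact fun t _ => (hd t).continuousAt.continuousWithinAt
  · exact fun t _ => (hd t).differentiableAt.differentiableWithinAt
  · intro t ht
    rw [interior_Icc] at ht
    rw [(hd t).deriv]
    exact mul_nonneg (Real.exp_pos _).le (hg t ht)

theorem lin_nonneg {y g h : ℝ → ℝ} {a b : ℝ} (hab : a ≤ b) (hh : Continuous h)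
    (hy : ∀ t, HasDerivAt y (g t - h t * y t) t) (hg : ∀ t ∈ Ioo a b, 0 ≤ g t) (hya : 0 ≤ y a) :
    0 ≤ y b := by
  obtain ⟨E, hE, hm, -⟩ := lin_mono hh hy hg
  have h1 := hm (left_mem_Icc.2 hab) (right_mem_Icc.2 hab) hab
  simp only at h1
  have h2 : 0 ≤ E b * y b := le_trans (mul_nonneg (hE a).le hya) h1
  exact nonneg_of_mul_nonneg_right h2 (hE b)

theorem lin_pos_of_pos {y g h : ℝ → ℝ} {a b : ℝ} (hab : a ≤ b) (hh : Continuous h)
    (hy : ∀ t, HasDerivAt y (g t - h t * y t) t) (hg : ∀ t ∈ Ioo a b, 0 ≤ g t) (hya : 0 < y a) :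
    0 < y b := by
  obtain ⟨E, hE, hm, -⟩ := lin_mono hh hy hg
  have h1 := hm (left_mem_Icc.2 hab) (right_mem_Icc.2 hab) hab
  simp only at h1
  have h2 : 0 < E b * y b := lt_of_lt_of_le (mul_pos (hE a) hya) h1
  exact pos_of_mul_pos_right h2 (hE b).le

theorem lin_pos {y g h : ℝ → ℝ} {a b : ℝ} (hab : a < b) (hh : Continuous h)
    (hy : ∀ t, HasDerivAt y (g t - h t * y t) t) (hg : ∀ t ∈ Ioo a b, 0 ≤ g t) (hya : 0 ≤ y a)
    (hs : ∃ c ∈ Ioo a b, 0 < g c) : 0 < y b := by
  obtain ⟨E, hE, hm, hd⟩ := lin_mono hh hy hg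
  obtain ⟨c, hc, hgc⟩ := hs
  have h0 : 0 ≤ E b * y b :=
    le_trans (mul_nonneg (hE a).le hya) (hm (left_mem_Icc.2 hab.le) (right_mem_Icc.2 hab.le) hab.le)
  rcases h0.lt_or_eq with h1 | h1
  · exact pos_of_mul_pos_right h1 (hE b).le
  · exfalso
    have hz : ∀ t ∈ Icc a b, E t * y t = 0 := by
      intro t ht
      apply le_antisymm
      · rw [h1]; exact hm ht (right_mem_Icc.2 hab.le) ht.2
      · exact le_trans (mul_nonneg (hE a).le hya) (hm (left_mem_Icc.2 hab.le) ht ht.1)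
    have h2 : HasDerivAt (fun t => E t * y t) 0 c := by
      apply (hasDerivAt_const c (0:ℝ)).congr_of_eventuallyEq
      filter_upwards [Ioo_mem_nhds hc.1 hc.2] with s hs
      exact hz s ⟨hs.1.le, hs.2.le⟩
    have h3 := h2.unique (hd c)
    have := mul_pos (hE c) hgc
    linarith

/-- `sin x = sinc x * x`. -/
theorem sin_eq_sinc (x : ℝ) : Real.sin x = Real.sinc x * x := by
  by_cases h : x = 0
  · simp [h]
  · rw [Real.sinc_of_ne_zero h]; field_simp

end Pool.Agent.K9h93.Bike
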