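import Mathlib
import Pool.Agent.K9h93.Bike.Ode

set_option autoImplicit false

open Set Topology Real

namespace Pool.Agent.K9h93.Bike

/-- A closed curve `(X,Y)` with speed `ρ` and strictly increasing tangent angle `φ` of total
variation `2π`. -/
structure Data (T : ℝ) (ρ φ k X Y : ℝ → ℝ) : Prop where
  Tpos : 0 < T
  ρpos : ∀ t, 0 < ρ t
  ρcont : Continuous ρ
  kcont : Continuous k
  hφ : ∀ t, HasDerivAt φ (k t) t
  mono : StrictMono φ
  ρper : ∀ t, ρ (t + T) = ρ t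
  φper : ∀ t, φ (t + T) = φ t + 2 * π
  hX : ∀ t, HasDerivAt X (ρ t * cos (φ t)) t
  hY : ∀ t, HasDerivAt Y (ρ t * sin (φ t)) t
  Xper : ∀ t, X (t + T) = X t
  Yper : ∀ t, Y (t + T) = Y t

/-- Solutions of the bicycle equation, `κ = 1/ℓ`. -/
def Sol (κ : ℝ) (ρ φ θ : ℝ → ℝ) : Prop :=
  ∀ t, HasDerivAt θ (κ * ρ t * sin (φ t - θ t)) t

variable {T κ : ℝ} {ρ φ k X Y θ : ℝ → ℝ}

namespace Data

lemma φcont (D : Data T ρ φ k X Y) : Continuous φ :=
  continuous_iff_continuousAt.2 fun t => (D.hφ t).continuousAt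

lemma k_nonneg (D : Data T ρ φ k X Y) (t : ℝ) : 0 ≤ k t := by
  rw [← (D.hφ t).deriv]
  exact D.mono.monotone.deriv_nonneg

lemma exists_k_pos (D : Data T ρ φ k X Y) {a b : ℝ} (hab : a < b) : ∃ c ∈ Ioo a b, 0 < k c := by
  obtain ⟨c, hc, h⟩ := exists_hasDerivAt_eq_slope φ k hab (D.φcont.continuousOn)
    (fun x _ => D.hφ x)
  refine ⟨c, hc, ?_⟩
  rw [h]
  exact div_pos (sub_pos.2 (D.mono hab)) (sub_pos.2 hab)

lemma surj (D : Data T ρ φ k X Y) : Function.Surjective φ := by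
  have hn : ∀ n : ℕ, ∀ t, φ (t + n * T) = φ t + n * (2 * π) := by
    intro n
    induction n with
    | zero => intro t; simp
    | succ n ih =>
      intro t
      have : t + ((n + 1 : ℕ) : ℝ) * T = (t + n * T) + T := by push_cast; ring
      rw [this, D.φper, ih]
      push_cast; ring
  intro y
  obtain ⟨n, hn1⟩ := exists_nat_gt (|y - φ 0|)
  have hpi : (1:ℝ) ≤ 2 * π := by linarith [Real.two_le_pi]
  have h1 : |y - φ 0| ≤ n * (2 * π) := by
    have : (n:ℝ) * 1 ≤ n * (2 * π) := by gcongr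
    linarith
  have h2 := abs_le.1 h1
  have h3 := hn n 0
  have h4 := hn n (0 - n * T)
  rw [sub_add_cancel] at h4
  have h5 : y ∈ Icc (φ (0 - n * T)) (φ (0 + n * T)) := by
    constructor <;> linarith
  have h6 : 0 - (n:ℝ) * T ≤ 0 + n * T := by
    have := D.Tpos
    have : 0 ≤ (n:ℝ) * T := by positivity
    linarith
  obtain ⟨t, -, ht⟩ := intermediate_value_Icc h6 (D.φcont.continuousOn) h5
  exact ⟨t, ht⟩

/-- the inverse function of the tangent angle -/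
lemma exists_inv (D : Data T ρ φ k X Y) :
    ∃ ψ : ℝ → ℝ, Continuous ψ ∧ (∀ y, φ (ψ y) = y) ∧ (∀ t, ψ (φ t) = t) ∧ StrictMono ψ := by
  let e : ℝ ≃o ℝ := D.mono.orderIsoOfSurjective φ D.surj
  have he : ∀ t, e t = φ t := fun t => rfl
  refine ⟨e.symm, e.symm.continuous, fun y => ?_, fun t => ?_, e.symm.strictMono⟩
  · rw [← he]; exact e.apply_symm_apply y
  · rw [← he]; exact e.symm_apply_apply t

end Data

namespace Sol

lemma cont (h : Sol κ ρ φ θ) : Continuous θ :=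
  continuous_iff_continuousAt.2 fun t => (h t).continuousAt

lemma add_int (h : Sol κ ρ φ θ) (m : ℤ) : Sol κ ρ φ (fun t => θ t + m * (2 * π)) := by
  intro t
  refine ((h t).add_const _).congr_deriv ?_
  have : φ t - (θ t + m * (2 * π)) = φ t - θ t - m * (2 * π) := by ring
  rw [this, Real.sin_sub_int_mul_two_pi]

lemma shift (D : Data T ρ φ k X Y) (h : Sol κ ρ φ θ) : Sol κ ρ φ (fun t => θ (t + T)) := by
  intro t
  have h1 := (h (t + T)).comp_add_const t T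
  refine h1.congr_deriv ?_
  rw [D.ρper, D.φper]
  have : φ t + 2 * π - θ (t + T) = φ t - θ (t + T) + 2 * π := by ring
  rw [this, Real.sin_add_two_pi]

/-- The angle `φ - θ` can cross multiples of `π` only upwards. -/
lemma cross (D : Data T ρ φ k X Y) (h : Sol κ ρ φ θ) (m : ℤ) {a b : ℝ} (hab : a < b)
    (ha : m * π ≤ φ a - θ a) : m * π < φ b - θ b := by
  have hc := h.cont
  have hφc := D.φcont
  have hρc := D.ρcont
  have h1 := lin_pos (y := fun t => φ t - θ t - m * π) (g := k)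
    (h := fun t => κ * ρ t * cos (m * π) * Real.sinc (φ t - θ t - m * π)) hab
    (by fun_prop) ?_ (fun t _ => D.k_nonneg t) (by linarith) (D.exists_k_pos hab)
  · linarith
  · intro t
    refine (((D.hφ t).sub (h t)).sub_const _).congr_deriv ?_
    have h2 : sin (φ t - θ t) = sin (φ t - θ t - m * π) * cos (m * π) := by
      have : φ t - θ t = (φ t - θ t - m * π) + m * π := by ring
      conv_lhs => rw [this, Real.sin_add, Real.sin_int_mul_pi]
      ring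
    rw [h2, sin_eq_sinc (φ t - θ t - m * π)]
    ring

/-- Solutions with the same `κ` are ordered. -/
lemma ordered (hρ : Continuous ρ) (hφ : Continuous φ) {θ₁ θ₂ : ℝ → ℝ} (h1 : Sol κ ρ φ θ₁)
    (h2 : Sol κ ρ φ θ₂) {a b : ℝ} (hab : a ≤ b) (ha : θ₁ a ≤ θ₂ a) : θ₁ b ≤ θ₂ b := by
  have hc1 := h1.cont
  have hc2 := h2.cont
  have h3 := lin_nonneg (y := fun t => θ₂ t - θ₁ t) (g := fun _ => 0)
    (h := fun t => κ * ρ t * cos (φ t - (θ₁ t + θ₂ t) / 2) * Real.sinc ((θ₂ t - θ₁ t) / 2)) hab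
    (by fun_prop) ?_ (fun t _ => le_refl _) (by linarith)
  · linarith
  · intro t
    refine ((h2 t).sub (h1 t)).congr_deriv ?_
    have h4 : sin (φ t - θ₂ t) - sin (φ t - θ₁ t) =
        -(2 * cos (φ t - (θ₁ t + θ₂ t) / 2) * sin ((θ₂ t - θ₁ t) / 2)) := by
      rw [Real.sin_sub_sin]
      have e1 : (φ t - θ₂ t - (φ t - θ₁ t)) / 2 = -((θ₂ t - θ₁ t) / 2) := by ring
      have e2 : (φ t - θ₂ t + (φ t - θ₁ t)) / 2 = φ t - (θ₁ t + θ₂ t) / 2 := by ring
      rw [e1, e2, Real.sin_neg]; ring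
    have h5 := sin_eq_sinc ((θ₂ t - θ₁ t) / 2)
    have h6 : κ * ρ t * sin (φ t - θ₂ t) - κ * ρ t * sin (φ t - θ₁ t) =
        κ * ρ t * (sin (φ t - θ₂ t) - sin (φ t - θ₁ t)) := by ring
    rw [h6, h4, h5]; ring

/-- Comparison for a larger `κ'`. -/
lemma compare (hρ : Continuous ρ) (hφ : Continuous φ) (hρ0 : ∀ t, 0 < ρ t) {κ' : ℝ}
    (hκ : κ < κ') {θ₁ θ₂ : ℝ → ℝ}
    (h1 : Sol κ ρ φ θ₁) (h2 : Sol κ' ρ φ θ₂) {a b : ℝ} (hab : a < b) (ha : θ₁ a ≤ θ₂ a)
    (hs : ∀ t ∈ Ioo a b, 0 < sin (φ t - θ₁ t)) : θ₁ b < θ₂ b := by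
  have hc1 := h1.cont
  have hc2 := h2.cont
  have hg : ∀ t ∈ Ioo a b, 0 < (κ' - κ) * ρ t * sin (φ t - θ₁ t) := by
    intro t ht
    have := hs t ht
    have := hρ0 t
    have : 0 < κ' - κ := by linarith
    positivity
  have h3 := lin_pos (y := fun t => θ₂ t - θ₁ t) (g := fun t => (κ' - κ) * ρ t * sin (φ t - θ₁ t))
    (h := fun t => κ' * ρ t * cos (φ t - (θ₁ t + θ₂ t) / 2) * Real.sinc ((θ₂ t - θ₁ t) / 2)) hab
    (by fun_prop) ?_ (fun t ht => (hg t ht).le) (by linarith)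
    ⟨(a + b) / 2, by constructor <;> linarith, hg _ (by constructor <;> linarith)⟩
  · linarith
  · intro t
    refine ((h2 t).sub (h1 t)).congr_deriv ?_
    have h4 : sin (φ t - θ₂ t) - sin (φ t - θ₁ t) =
        -(2 * cos (φ t - (θ₁ t + θ₂ t) / 2) * sin ((θ₂ t - θ₁ t) / 2)) := by
      rw [Real.sin_sub_sin]
      have e1 : (φ t - θ₂ t - (φ t - θ₁ t)) / 2 = -((θ₂ t - θ₁ t) / 2) := by ring
      have e2 : (φ t - θ₂ t + (φ t - θ₁ t)) / 2 = φ t - (θ₁ t + θ₂ t) / 2 := by ring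
      rw [e1, e2, Real.sin_neg]; ring
    have h5 := sin_eq_sinc ((θ₂ t - θ₁ t) / 2)
    have h6 : κ' * ρ t * sin (φ t - θ₂ t) - κ * ρ t * sin (φ t - θ₁ t) =
        κ' * ρ t * (sin (φ t - θ₂ t) - sin (φ t - θ₁ t)) +
          (κ' - κ) * ρ t * sin (φ t - θ₁ t) := by ring
    rw [h6, h4, h5]; ring

end Sol

/-- strict monotonicity of a solution where `sin (φ - θ) > 0` -/
lemma strictMonoOn_sol (hρ0 : ∀ t, 0 < ρ t) (hκ : 0 < κ) (h : Sol κ ρ φ θ) {a b : ℝ}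
    (hs : ∀ t ∈ Ioo a b, 0 < sin (φ t - θ t)) : StrictMonoOn θ (Icc a b) := by
  apply strictMonoOn_of_deriv_pos (convex_Icc a b) h.cont.continuousOn
  intro t ht
  rw [interior_Icc] at ht
  rw [(h t).deriv]
  have := hs t ht
  have := hρ0 t
  positivity

lemma strictAntiOn_sol (hρ0 : ∀ t, 0 < ρ t) (hκ : 0 < κ) (h : Sol κ ρ φ θ) {a b : ℝ}
    (hs : ∀ t ∈ Ioo a b, sin (φ t - θ t) < 0) : StrictAntiOn θ (Icc a b) := by
  apply strictAntiOn_of_deriv_neg (convex_Icc a b) h.cont.continuousOn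
  intro t ht
  rw [interior_Icc] at ht
  rw [(h t).deriv]
  have := hs t ht
  have := hρ0 t
  exact mul_neg_of_pos_of_neg (by positivity) (hs t ht)

end Pool.Agent.K9h93.Bike
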