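import Mathlib
import Pool.Agent.K9h93.Bike.Core

set_option autoImplicit false

open Set Topology Real

namespace Pool.Agent.K9h93.Bike

/-- planar cross product -/
def cr (z w : ℂ) : ℝ := z.re * w.im - z.im * w.re

lemma cr_smul_right (z w : ℂ) (r : ℝ) : cr z (r • w) = r * cr z w := by
  simp [cr]; ring

lemma cr_self_zero (z : ℂ) : cr z 0 = 0 := by simp [cr]

/-- A positively oriented regular closed curve lying strictly to the left of its tangents. -/
structure PosTrack (Γ : ℝ → ℂ) (T : ℝ) : Prop where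
  Tpos : 0 < T
  smooth : ContDiff ℝ 2 Γ
  periodic : ∀ t, Γ (t + T) = Γ t
  regular : ∀ t, deriv Γ t ≠ 0
  simple : ∀ s t, |s - t| < T → Γ s = Γ t → s = t
  supp : ∀ t s, Γ s ≠ Γ t → 0 < cr (deriv Γ t) (Γ s - Γ t)

section supportLines

variable {Γ : ℝ → ℂ} {K : Set ℂ}

lemma support_sign (hd : Differentiable ℝ Γ) (hr : ∀ t, deriv Γ t ≠ 0) (hK : Convex ℝ K)
    (hfr : range Γ = frontier K) (hne : (interior K).Nonempty) (t : ℝ) :
    ∃ μ : ℝ, ∀ a ∈ interior K, μ * cr (deriv Γ t) (a - Γ t) < 0 := by
  have hmem : ∀ s, Γ s ∈ frontier K := fun s => by rw [← hfr]; exact mem_range_self s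
  have hnot : Γ t ∉ interior K := by
    have := hmem t
    rw [frontier] at this
    exact this.2
  obtain ⟨f, hf⟩ := geometric_hahn_banach_open_point hK.interior isOpen_interior hnot
  have hcl : closure (interior K) = closure K :=
    hK.closure_interior_eq_closure_of_nonempty_interior hne
  have hle : ∀ s, f (Γ s) ≤ f (Γ t) := by
    intro s
    have h1 : Γ s ∈ closure (interior K) := by
      rw [hcl]; exact frontier_subset_closure (hmem s)
    have h2 : closure (interior K) ⊆ {z | f z ≤ f (Γ t)} := by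
      apply closure_minimal
      · exact fun z hz => (hf z hz).le
      · exact isClosed_le f.continuous continuous_const
    exact h2 h1
  have hder : HasDerivAt (fun s => f (Γ s)) (f (deriv Γ t)) t :=
    f.hasFDerivAt.comp_hasDerivAt t (hd t).hasDerivAt
  have h0 : f (deriv Γ t) = 0 := by
    have hmax : IsLocalMax (fun s => f (Γ s)) t := Filter.Eventually.of_forall hle
    exact hmax.hasDerivAt_eq_zero hder
  have hlin : ∀ z : ℂ, f z = z.re * f 1 + z.im * f Complex.I := by
    intro z
    have : z = z.re • (1:ℂ) + z.im • Complex.I := by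
      apply Complex.ext <;> simp
    conv_lhs => rw [this]
    rw [map_add, map_smul, map_smul, smul_eq_mul, smul_eq_mul]
  set x := (deriv Γ t).re with hx
  set y := (deriv Γ t).im with hy
  have hxy : 0 < x ^ 2 + y ^ 2 := by
    have h1 : x ≠ 0 ∨ y ≠ 0 := by
      by_contra hcon
      push Not at hcon
      exact hr t (Complex.ext hcon.1 hcon.2)
    rcases h1 with h | h <;> positivity
  rw [hlin] at h0
  rw [← hx, ← hy] at h0
  refine ⟨(f Complex.I * x - f 1 * y) / (x ^ 2 + y ^ 2), fun a ha => ?_⟩
  have h1 := hf a ha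
  have h2 : f (a - Γ t) < 0 := by rw [map_sub]; linarith
  rw [hlin] at h2
  have h3 : (f Complex.I * x - f 1 * y) / (x ^ 2 + y ^ 2) * cr (deriv Γ t) (a - Γ t) =
      (a - Γ t).re * f 1 + (a - Γ t).im * f Complex.I := by
    rw [div_mul_eq_mul_div, div_eq_iff hxy.ne', cr, ← hx, ← hy]
    linear_combination (-(x * (a - Γ t).re + y * (a - Γ t).im)) * h0
  rw [h3]
  exact h2

lemma orientation (hs : ContDiff ℝ 2 Γ) (hr : ∀ t, deriv Γ t ≠ 0) (hK : Convex ℝ K)
    (hfr : range Γ = frontier K) (hne : (interior K).Nonempty) :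
    (∀ t, ∀ a ∈ interior K, 0 < cr (deriv Γ t) (a - Γ t)) ∨
      (∀ t, ∀ a ∈ interior K, cr (deriv Γ t) (a - Γ t) < 0) := by
  have hd : Differentiable ℝ Γ := hs.differentiable (by norm_num)
  have hdc : Continuous (deriv Γ) := hs.continuous_deriv (by norm_num)
  obtain ⟨c, hc⟩ := hne
  have hcont : Continuous fun t => cr (deriv Γ t) (c - Γ t) := by
    unfold cr
    have := hd.continuous
    fun_prop
  have hne0 : ∀ t, cr (deriv Γ t) (c - Γ t) ≠ 0 := by
    intro t h0
    obtain ⟨μ, hμ⟩ := support_sign hd hr hK hfr ⟨c, hc⟩ t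
    have := hμ c hc
    rw [h0] at this
    linarith
  have hsign : (∀ t, 0 < cr (deriv Γ t) (c - Γ t)) ∨ (∀ t, cr (deriv Γ t) (c - Γ t) < 0) := by
    by_contra hcon
    push Not at hcon
    obtain ⟨⟨t1, h1⟩, t2, h2⟩ := hcon
    have : (0:ℝ) ∈ range fun t => cr (deriv Γ t) (c - Γ t) :=
      mem_range_of_exists_le_of_exists_ge hcont ⟨t1, h1⟩ ⟨t2, h2⟩
    obtain ⟨t, ht⟩ := this
    exact hne0 t ht
  rcases hsign with h | h
  · left
    intro t a ha
    obtain ⟨μ, hμ⟩ := support_sign hd hr hK hfr ⟨c, hc⟩ t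
    have h1 := hμ c hc
    have h2 := hμ a ha
    have h3 := h t
    have hμneg : μ < 0 := by
      by_contra hcon
      push Not at hcon
      have := mul_nonneg hcon h3.le
      linarith
    by_contra hcon
    push Not at hcon
    have := mul_nonneg_of_nonpos_of_nonpos hμneg.le hcon
    linarith
  · right
    intro t a ha
    obtain ⟨μ, hμ⟩ := support_sign hd hr hK hfr ⟨c, hc⟩ t
    have h1 := hμ c hc
    have h2 := hμ a ha
    have h3 := h t
    have hμpos : 0 < μ := by
      by_contra hcon
      push Not at hcon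
      have := mul_nonneg_of_nonpos_of_nonpos hcon h3.le
      linarith
    by_contra hcon
    push Not at hcon
    have := mul_nonneg hμpos.le hcon
    linarith

end supportLines

lemma simple_of_injOn {Γ : ℝ → ℂ} {T : ℝ} (hT : 0 < T) (hper : ∀ t, Γ (t + T) = Γ t)
    (hinj : InjOn Γ (Ico 0 T)) (s t : ℝ) (hst : |s - t| < T) (h : Γ s = Γ t) : s = t := by
  have hP : Function.Periodic Γ T := hper
  have h1 : ∀ x, Γ (x - ⌊x / T⌋ * T) = Γ x := fun x => hP.sub_int_mul_eq _
  have h2 : ∀ x, x - ⌊x / T⌋ * T ∈ Ico 0 T := by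
    intro x
    have h3 := Int.floor_le (x / T)
    have h4 := Int.lt_floor_add_one (x / T)
    rw [le_div_iff₀ hT] at h3
    rw [div_lt_iff₀ hT] at h4
    constructor <;> nlinarith
  have h3 : s - ⌊s / T⌋ * T = t - ⌊t / T⌋ * T :=
    hinj (h2 s) (h2 t) (by rw [h1, h1, h])
  have h4 : s - t = ((⌊s / T⌋ - ⌊t / T⌋ : ℤ) : ℝ) * T := by
    push_cast; linarith
  rw [h4, abs_mul, abs_of_pos hT] at hst
  have h5 : |((⌊s / T⌋ - ⌊t / T⌋ : ℤ) : ℝ)| < 1 := by
    by_contra hcon
    push Not at hcon
    nlinarith
  have h6 : (⌊s / T⌋ - ⌊t / T⌋ : ℤ) = 0 := by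
    have : |(⌊s / T⌋ - ⌊t / T⌋ : ℤ)| < 1 := by exact_mod_cast h5
    exact Int.abs_lt_one_iff.1 this
  rw [h6] at h4
  simp only [Int.cast_zero, zero_mul] at h4
  linarith

namespace PosTrack

variable {Γ : ℝ → ℂ} {T : ℝ}

theorem data (P : PosTrack Γ T) :
    ∃ ρ φ k : ℝ → ℝ, Data T ρ φ k (fun t => (Γ t).re) (fun t => (Γ t).im) ∧
      ∀ t, (deriv Γ t).re = ρ t * cos (φ t) ∧ (deriv Γ t).im = ρ t * sin (φ t) := by
  have hT := P.Tpos
  have hd : Differentiable ℝ Γ := P.smooth.differentiable (by norm_num)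
  have hd1 : ContDiff ℝ 1 (deriv Γ) := by
    have := P.smooth
    rw [show (2 : WithTop ℕ∞) = 1 + 1 by norm_num, contDiff_succ_iff_deriv] at this
    exact this.2.2
  have hdd : Differentiable ℝ (deriv Γ) := hd1.differentiable (by norm_num)
  have hdc : Continuous (deriv Γ) := hd1.continuous
  have hddc : Continuous (deriv (deriv Γ)) := hd1.continuous_deriv (le_refl _)
  have hqc : Continuous fun t => deriv (deriv Γ) t / deriv Γ t := hddc.div hdc P.regular
  let L : ℝ → ℂ := fun t => Complex.log (deriv Γ 0) +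
    ∫ u in (0:ℝ)..t, deriv (deriv Γ) u / deriv Γ u
  have hL : ∀ t, HasDerivAt L (deriv (deriv Γ) t / deriv Γ t) t := fun t =>
    ((hqc.integral_hasStrictDerivAt 0 t).hasDerivAt).const_add _
  have hexp : ∀ t, deriv Γ t = Complex.exp (L t) := by
    have hF : ∀ t, HasDerivAt (fun t => deriv Γ t * Complex.exp (-L t)) 0 t := by
      intro t
      refine ((hdd t).hasDerivAt.mul ((hL t).neg.cexp)).congr_deriv ?_
      have := P.regular t
      simp only [Pi.neg_apply]
      field_simp
      ring
    intro t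
    have h1 := is_const_of_deriv_eq_zero (fun t => (hF t).differentiableAt)
      (fun t => (hF t).deriv) t 0
    have h2 : L 0 = Complex.log (deriv Γ 0) := by simp [L]
    rw [h2, Complex.exp_neg, Complex.exp_neg, Complex.exp_log (P.regular 0),
      mul_inv_cancel₀ (P.regular 0)] at h1
    have h3 := Complex.exp_ne_zero (L t)
    field_simp at h1
    exact h1
  set ρ : ℝ → ℝ := fun t => Real.exp (L t).re with hρ
  set φ : ℝ → ℝ := fun t => (L t).im with hφ
  set k : ℝ → ℝ := fun t => (deriv (deriv Γ) t / deriv Γ t).im with hk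
  have hLc : Continuous L := continuous_iff_continuousAt.2 fun t => (hL t).continuousAt
  have hρpos : ∀ t, 0 < ρ t := fun t => Real.exp_pos _
  have hre : ∀ t, (deriv Γ t).re = ρ t * cos (φ t) := fun t => by
    rw [hexp, Complex.exp_re]
  have him : ∀ t, (deriv Γ t).im = ρ t * sin (φ t) := fun t => by
    rw [hexp, Complex.exp_im]
  have hφd : ∀ t, HasDerivAt φ (k t) t := by
    intro t
    exact (Complex.imCLM.hasFDerivAt.comp_hasDerivAt t (hL t))
  have hφc : Continuous φ := by fun_prop
  have hcrd : ∀ t z, HasDerivAt (fun s => cr z (Γ s - Γ t)) (cr z (deriv Γ t)) t := by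
    intro t z
    have h1 := (hd t).hasDerivAt
    have h2 : HasDerivAt (fun s => (Γ s).re) (deriv Γ t).re t :=
      Complex.reCLM.hasFDerivAt.comp_hasDerivAt t h1
    have h3 : HasDerivAt (fun s => (Γ s).im) (deriv Γ t).im t :=
      Complex.imCLM.hasFDerivAt.comp_hasDerivAt t h1
    have h4 := ((h3.sub_const (Γ t).im).const_mul z.re).sub
      ((h2.sub_const (Γ t).re).const_mul z.im)
    exact h4
  have hcrd' : ∀ t₀ t z, HasDerivAt (fun s => cr z (Γ s - Γ t₀)) (cr z (deriv Γ t)) t := by
    intro t₀ t z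
    have h1 := (hd t).hasDerivAt
    have h2 : HasDerivAt (fun s => (Γ s).re) (deriv Γ t).re t :=
      Complex.reCLM.hasFDerivAt.comp_hasDerivAt t h1
    have h3 : HasDerivAt (fun s => (Γ s).im) (deriv Γ t).im t :=
      Complex.imCLM.hasFDerivAt.comp_hasDerivAt t h1
    have h4 := ((h3.sub_const (Γ t₀).im).const_mul z.re).sub
      ((h2.sub_const (Γ t₀).re).const_mul z.im)
    exact h4
  have hcrdd : ∀ t z, HasDerivAt (fun s => cr z (deriv Γ s)) (cr z (deriv (deriv Γ) t)) t := by
    intro t z
    have h1 := (hdd t).hasDerivAt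
    have h2 : HasDerivAt (fun s => (deriv Γ s).re) (deriv (deriv Γ) t).re t :=
      Complex.reCLM.hasFDerivAt.comp_hasDerivAt t h1
    have h3 : HasDerivAt (fun s => (deriv Γ s).im) (deriv (deriv Γ) t).im t :=
      Complex.imCLM.hasFDerivAt.comp_hasDerivAt t h1
    exact (h3.const_mul z.re).sub (h2.const_mul z.im)
  have hcrρ : ∀ s t, cr (deriv Γ s) (deriv Γ t) = ρ s * ρ t * sin (φ t - φ s) := by
    intro s t
    rw [cr, hre, hre, him, him, Real.sin_sub]; ring
  have hk0 : ∀ t, 0 ≤ k t := by
    intro t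
    by_contra hcon
    push Not at hcon
    have h1 : cr (deriv Γ t) (deriv (deriv Γ) t) = Complex.normSq (deriv Γ t) * k t := by
      have hz := P.regular t
      have hn : Complex.normSq (deriv Γ t) ≠ 0 := by
        simpa [Complex.normSq_eq_zero] using hz
      simp only [hk, Complex.div_im]
      rw [cr]
      field_simp
    have h2 : deriv (fun s => cr (deriv Γ t) (Γ s - Γ t)) =
        fun s => cr (deriv Γ t) (deriv Γ s) := funext fun s => (hcrd' t s _).deriv
    have hneg : deriv (deriv fun s => cr (deriv Γ t) (Γ s - Γ t)) t < 0 := by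
      rw [h2, (hcrdd t _).deriv, h1]
      have : 0 < Complex.normSq (deriv Γ t) := Complex.normSq_pos.2 (P.regular t)
      exact mul_neg_of_pos_of_neg this hcon
    have h0 : deriv (fun s => cr (deriv Γ t) (Γ s - Γ t)) t = 0 := by
      rw [(hcrd' t t _).deriv, hcrρ]; simp
    have hmax := isLocalMax_of_deriv_deriv_neg hneg h0 (hcrd' t t _).continuousAt
    have hev : ∀ᶠ s in 𝓝 t, s ∈ Ioo (t - T) (t + T) :=
      Ioo_mem_nhds (by linarith) (by linarith)
    obtain ⟨ε, hε, hball⟩ := Metric.eventually_nhds_iff.1 (hmax.and hev)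
    have hs := hball (y := t + ε / 2) (by rw [Real.dist_eq]; rw [abs_lt]; constructor <;> linarith)
    have hne : Γ (t + ε / 2) ≠ Γ t := by
      intro he
      have := P.simple _ _ (by rw [abs_lt]; constructor <;> linarith [hs.2.1, hs.2.2]) he
      linarith
    have h3 := P.supp t (t + ε / 2) hne
    have h4 := hs.1
    simp only [sub_self, cr_self_zero] at h4
    linarith
  have hmono : Monotone φ := monotone_of_deriv_nonneg (fun t => (hφd t).differentiableAt)
    (fun t => by rw [(hφd t).deriv]; exact hk0 t)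
  have hsm : StrictMono φ := by
    intro s t hst
    rcases (hmono hst.le).lt_or_eq with h | h
    · exact h
    · exfalso
      set u := min t (s + T / 2) with hu
      have hsu : s < u := lt_min hst (by linarith)
      have hut : u ≤ t := min_le_left _ _
      have hconst : ∀ x ∈ Icc s u, cr (deriv Γ s) (Γ x - Γ s) = cr (deriv Γ s) (Γ s - Γ s) := by
        apply constant_of_has_deriv_right_zero
        · exact fun x _ => (hcrd' s x _).continuousAt.continuousWithinAt
        · intro x hx
          have h1 : φ x = φ s := by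
            apply le_antisymm
            · rw [h]; exact hmono (hx.2.le.trans hut)
            · exact hmono hx.1
          have h2 := (hcrd' s x (deriv Γ s)).hasDerivWithinAt (s := Ici x)
          rw [hcrρ, h1, sub_self, Real.sin_zero, mul_zero] at h2
          exact h2
      have h1 := hconst u (right_mem_Icc.2 hsu.le)
      have hne : Γ u ≠ Γ s := by
        intro he
        have h2 : u ≤ s + T / 2 := min_le_right _ _
        have := P.simple _ _ (by rw [abs_lt]; constructor <;> linarith) he
        linarith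
      have h3 := P.supp s u hne
      rw [h1, sub_self, cr_self_zero] at h3
      exact lt_irrefl _ h3
  have hder_per : ∀ t, deriv Γ (t + T) = deriv Γ t := by
    intro t
    have h1 : (fun s => Γ (s + T)) = Γ := funext P.periodic
    have h2 := deriv_comp_add_const Γ T t
    rw [h1] at h2
    exact h2.symm
  have hρper : ∀ t, ρ (t + T) = ρ t := by
    intro t
    have h1 : ‖deriv Γ (t + T)‖ = ‖deriv Γ t‖ := by rw [hder_per]
    rw [hexp, hexp, Complex.norm_exp, Complex.norm_exp] at h1
    exact h1
  have hφper : ∀ t, φ (t + T) = φ t + 2 * π := by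
    intro t
    have hpi := Real.pi_pos
    have h1 : Complex.exp (L (t + T)) = Complex.exp (L t) := by
      rw [← hexp, ← hexp, hder_per]
    obtain ⟨n, hn⟩ := Complex.exp_eq_exp_iff_exists_int.1 h1
    have h2 : φ (t + T) = φ t + n * (2 * π) := by
      have := congrArg Complex.im hn
      simpa using this
    have h3 : φ t < φ (t + T) := hsm (by linarith)
    have hn1 : 0 < n := by
      by_contra hcon
      push Not at hcon
      have : (n : ℝ) ≤ 0 := by exact_mod_cast hcon
      nlinarith
    have hn2 : n < 2 := by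
      by_contra hcon
      push Not at hcon
      have h4 : (2:ℝ) ≤ n := by exact_mod_cast hcon
      have h5 : φ t + 2 * π ∈ Ioo (φ t) (φ (t + T)) := by
        constructor
        · linarith
        · nlinarith
      obtain ⟨t', ht', h6⟩ := intermediate_value_Ioo (by linarith : t ≤ t + T)
        hφc.continuousOn h5
      have hne : Γ t' ≠ Γ t := by
        intro he
        have := P.simple _ _ (by rw [abs_lt]; constructor <;> linarith [ht'.1, ht'.2]) he
        linarith [ht'.1]
      have h7 := P.supp t t' hne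
      have h8 := P.supp t' t hne.symm
      have h9 : ρ t * cr (deriv Γ t') (Γ t - Γ t') = -(ρ t' * cr (deriv Γ t) (Γ t' - Γ t)) := by
        rw [cr, cr, hre, hre, him, him, h6, Real.cos_add_two_pi, Real.sin_add_two_pi]
        simp only [Complex.sub_re, Complex.sub_im]
        ring
      have h10 := mul_pos (hρpos t) h8
      have h11 := mul_pos (hρpos t') h7
      linarith
    have hn3 : n = 1 := by omega
    rw [h2, hn3]; simp
  refine ⟨ρ, φ, k, ⟨hT, hρpos, by fun_prop, ?_, hφd, hsm, hρper, hφper, ?_, ?_, ?_, ?_⟩,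
    fun t => ⟨hre t, him t⟩⟩
  · exact Complex.continuous_im.comp hqc
  · intro t
    rw [← hre]
    exact Complex.reCLM.hasFDerivAt.comp_hasDerivAt t (hd t).hasDerivAt
  · intro t
    rw [← him]
    exact Complex.imCLM.hasFDerivAt.comp_hasDerivAt t (hd t).hasDerivAt
  · intro t; simp only [P.periodic]
  · intro t; simp only [P.periodic]

end PosTrack

end Pool.Agent.K9h93.Bike
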