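import Mathlib
import Pool.Agent.K9h93.Bike.Core

set_option autoImplicit false

open Set Topology Real

namespace Pool.Agent.K9h93.Bike

variable {T κ : ℝ} {ρ φ k X Y θ : ℝ → ℝ}

/-- the elementary identity behind the key inequality -/
lemma trig_id (p t a f : ℝ) :
    sin (p - a) * sin (f - t) = sin (p - t) * sin (f - a) - sin (p - f) * sin (t - a) := by
  simp only [Real.sin_sub]
  have h1 := Real.sin_sq_add_cos_sq a
  have h2 := Real.sin_sq_add_cos_sq t
  have h3 := Real.sin_sq_add_cos_sq p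
  have h4 := Real.sin_sq_add_cos_sq f
  ring_nf

/-- antiderivative of `1 / sin (f - x)` -/
lemma hasDerivAt_logtan {f x : ℝ} (h : 0 < f - x) (h' : f - x < π) :
    HasDerivAt (fun x => log (cos ((f - x) / 2)) - log (sin ((f - x) / 2)))
      (1 / sin (f - x)) x := by
  have hs : 0 < sin ((f - x) / 2) := Real.sin_pos_of_pos_of_lt_pi (by linarith) (by linarith)
  have hc : 0 < cos ((f - x) / 2) := Real.cos_pos_of_mem_Ioo ⟨by linarith, by linarith⟩
  have hd : HasDerivAt (fun x => (f - x) / 2) (-1 / 2) x := by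
    simpa using ((hasDerivAt_id x).const_sub f).div_const 2
  have h1 := (hd.cos).log hc.ne'
  have h2 := (hd.sin).log hs.ne'
  refine (h1.sub h2).congr_deriv ?_
  have h3 : sin (f - x) = 2 * sin ((f - x) / 2) * cos ((f - x) / 2) := by
    rw [← Real.sin_two_mul]; congr 1; ring
  rw [h3]
  have h4 := Real.sin_sq_add_cos_sq ((f - x) / 2)
  field_simp
  linear_combination h4

/-- Key step: a solution cannot start at a tangential position and return (after one period)
not above itself all along. -/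
lemma core (D : Data T ρ φ k X Y) (hκ : 0 < κ) (h : Sol κ ρ φ θ) {t₀ : ℝ}
    (h0 : θ t₀ = φ t₀) (hle : ∀ t ∈ Icc t₀ (t₀ + T), θ (t + T) ≤ θ t) : False := by
  have hT := D.Tpos
  have hpi := Real.pi_pos
  have hφc := D.φcont
  have hθc := h.cont
  have hωc : Continuous fun t => φ t - θ t := by fun_prop
  have hpos : ∀ t, t₀ < t → 0 < φ t - θ t := by
    intro t ht
    have := h.cross D 0 ht (by simp [h0])
    simpa using this
  have hend : 2 * π ≤ φ (t₀ + T) - θ (t₀ + T) := by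
    rw [D.φper]
    have := hle t₀ ⟨le_refl _, by linarith⟩
    linarith
  -- the first return to `π`
  obtain ⟨t₁, ht₁, hω1⟩ : ∃ t₁ ∈ Ioo t₀ (t₀ + T), φ t₁ - θ t₁ = π := by
    have h1 : π ∈ Ioo (φ t₀ - θ t₀) (φ (t₀ + T) - θ (t₀ + T)) := by
      rw [h0]; constructor <;> linarith
    obtain ⟨t, ht, hx⟩ := intermediate_value_Ioo (by linarith : t₀ ≤ t₀ + T)
      hωc.continuousOn h1
    exact ⟨t, ht, hx⟩
  obtain ⟨t₂, ht₂, hω2⟩ : ∃ t₂ ∈ Icc t₁ (t₀ + T), φ t₂ - θ t₂ = 2 * π := by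
    have h1 : 2 * π ∈ Icc (φ t₁ - θ t₁) (φ (t₀ + T) - θ (t₀ + T)) := by
      rw [hω1]; constructor <;> linarith
    obtain ⟨t, ht, hx⟩ := intermediate_value_Icc ht₁.2.le hωc.continuousOn h1
    exact ⟨t, ht, hx⟩
  have ht12 : t₁ < t₂ := by
    rcases ht₂.1.lt_or_eq with h1 | h1
    · exact h1
    · rw [← h1, hω1] at hω2; linarith
  have hI1 : ∀ t ∈ Ioo t₀ t₁, 0 < φ t - θ t ∧ φ t - θ t < π := by
    intro t ht
    refine ⟨hpos t ht.1, ?_⟩
    by_contra hcon
    have := h.cross D 1 ht.2 (by push_cast; linarith)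
    push_cast at this
    linarith
  have hI2 : ∀ t ∈ Ioo t₁ t₂, π < φ t - θ t ∧ φ t - θ t < 2 * π := by
    intro t ht
    constructor
    · have := h.cross D 1 ht.1 (by push_cast; linarith)
      push_cast at this
      linarith
    · by_contra hcon
      have := h.cross D 2 ht.2 (by push_cast; linarith)
      push_cast at this
      linarith
  have hm1 : StrictMonoOn θ (Icc t₀ t₁) := by
    apply strictMonoOn_sol D.ρpos hκ h
    intro t ht
    exact Real.sin_pos_of_pos_of_lt_pi (hI1 t ht).1 (hI1 t ht).2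
  have hm2 : StrictAntiOn θ (Icc t₁ t₂) := by
    apply strictAntiOn_sol D.ρpos hκ h
    intro t ht
    have h1 := hI2 t ht
    have h2 : sin (φ t - θ t) = -sin (φ t - θ t - π) := by rw [Real.sin_sub_pi]; ring
    rw [h2, neg_lt_zero]
    exact Real.sin_pos_of_pos_of_lt_pi (by linarith) (by linarith)
  -- comparison of the extreme values
  have ha' : θ t₂ ≤ θ t₀ := by
    have h1 : φ t₂ ≤ φ (t₀ + T) := D.mono.monotone ht₂.2
    rw [D.φper] at h1
    linarith
  have hb : θ t₀ < θ t₁ := hm1 (left_mem_Icc.2 ht₁.1.le) (right_mem_Icc.2 ht₁.1.le) ht₁.1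
  have hφ12 : φ t₁ < φ t₂ := D.mono ht12
  have hba : θ t₁ - θ t₂ < π := by linarith
  obtain ⟨ψ, hψc, hφψ, hψφ, hψm⟩ := D.exists_inv
  -- the two matching times
  obtain ⟨f, hf, hG⟩ : ∃ f ∈ Ioo (θ t₁) (θ t₂ + π), θ (ψ f) - θ (ψ (f + π)) = 0 := by
    have hGc : Continuous fun y => θ (ψ y) - θ (ψ (y + π)) := by fun_prop
    have e1 : θ (ψ (θ t₁)) - θ (ψ (θ t₁ + π)) < 0 := by
      have h1 : ψ (θ t₁ + π) = t₁ := by
        rw [show θ t₁ + π = φ t₁ by linarith]; exact hψφ t₁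
      have h2 : ψ (θ t₁) < t₁ := by
        calc ψ (θ t₁) < ψ (φ t₁) := hψm (by linarith)
          _ = t₁ := hψφ t₁
      have h3 : t₀ < ψ (θ t₁) := by
        calc t₀ = ψ (φ t₀) := (hψφ t₀).symm
          _ < ψ (θ t₁) := hψm (by linarith)
      rw [h1]
      have := hm1 ⟨h3.le, h2.le⟩ (right_mem_Icc.2 ht₁.1.le) h2
      linarith
    have e2 : 0 < θ (ψ (θ t₂ + π)) - θ (ψ (θ t₂ + π + π)) := by
      have h1 : ψ (θ t₂ + π + π) = t₂ := by
        rw [show θ t₂ + π + π = φ t₂ by linarith]; exact hψφ t₂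
      have h2 : ψ (θ t₂ + π) < t₁ := by
        calc ψ (θ t₂ + π) < ψ (φ t₁) := hψm (by linarith)
          _ = t₁ := hψφ t₁
      have h3 : t₀ < ψ (θ t₂ + π) := by
        calc t₀ = ψ (φ t₀) := (hψφ t₀).symm
          _ < ψ (θ t₂ + π) := hψm (by linarith)
      rw [h1]
      have := hm1 (left_mem_Icc.2 ht₁.1.le) ⟨h3.le, h2.le⟩ h3
      linarith
    obtain ⟨f, hf, hx⟩ := intermediate_value_Ioo (by linarith : θ t₁ ≤ θ t₂ + π)
      hGc.continuousOn (⟨e1, e2⟩ : (0:ℝ) ∈ Ioo _ _)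
    exact ⟨f, hf, hx⟩
  set τ₁ := ψ f with hτ₁
  set τ₂ := ψ (f + π) with hτ₂
  have hφτ1 : φ τ₁ = f := hφψ f
  have hφτ2 : φ τ₂ = f + π := hφψ (f + π)
  have hτ01 : t₀ < τ₁ := by rw [hτ₁, ← hψφ t₀]; apply hψm; linarith [hf.1]
  have hτ11 : τ₁ < t₁ := by rw [hτ₁, ← hψφ t₁]; apply hψm; linarith [hf.2]
  have hτ12 : t₁ < τ₂ := by rw [hτ₂, ← hψφ t₁]; apply hψm; linarith [hf.1]
  have hτ22 : τ₂ < t₂ := by rw [hτ₂, ← hψφ t₂]; apply hψm; linarith [hf.2]
  set α := θ τ₁ with hα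
  have hα2 : θ τ₂ = α := by linarith
  have hα0 : θ t₀ < α := hm1 (left_mem_Icc.2 ht₁.1.le) ⟨hτ01.le, hτ11.le⟩ hτ01
  have hα1 : α < θ t₁ := hm1 ⟨hτ01.le, hτ11.le⟩ (right_mem_Icc.2 ht₁.1.le) hτ11
  have ht2T : t₂ < τ₁ + T := by linarith [ht₂.2]
  -- after `t₂` the solution increases up to `τ₁ + T`
  have hI3 : ∀ t ∈ Ioc t₂ (τ₁ + T), 2 * π < φ t - θ t ∧ φ t - θ t < 3 * π := by
    have hlow : ∀ t, t₂ < t → 2 * π < φ t - θ t := by
      intro t ht
      have := h.cross D 2 ht (by push_cast; linarith)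
      push_cast at this
      linarith
    intro t ht
    refine ⟨hlow t ht.1, ?_⟩
    by_contra hcon
    push Not at hcon
    obtain ⟨t₃, ht₃, hω3⟩ : ∃ t₃ ∈ Icc t₂ t, φ t₃ - θ t₃ = 3 * π := by
      have h1 : 3 * π ∈ Icc (φ t₂ - θ t₂) (φ t - θ t) := by
        rw [hω2]; constructor <;> linarith
      obtain ⟨s, hs, hx⟩ := intermediate_value_Icc ht.1.le hωc.continuousOn h1
      exact ⟨s, hs, hx⟩
    have ht23 : t₂ < t₃ := by
      rcases ht₃.1.lt_or_eq with h1 | h1
      · exact h1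
      · rw [← h1, hω2] at hω3; linarith
    have hm3 : StrictMonoOn θ (Icc t₂ t₃) := by
      apply strictMonoOn_sol D.ρpos hκ h
      intro s hs
      have h1 := hlow s hs.1
      have h2 : φ s - θ s < 3 * π := by
        by_contra hcon'
        have := h.cross D 3 hs.2 (by push_cast; linarith)
        push_cast at this
        linarith
      have h3 : sin (φ s - θ s) = sin (φ s - θ s - 2 * π) := by rw [Real.sin_sub_two_pi]
      rw [h3]
      exact Real.sin_pos_of_pos_of_lt_pi (by linarith) (by linarith)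
    have h1 : θ t₂ < θ t₃ := hm3 (left_mem_Icc.2 ht23.le) (right_mem_Icc.2 ht23.le) ht23
    have h2 : φ t₃ ≤ φ (τ₁ + T) := D.mono.monotone (ht₃.2.trans ht.2)
    rw [D.φper, hφτ1] at h2
    linarith [hf.2]
  have hm3 : StrictMonoOn θ (Icc t₂ (τ₁ + T)) := by
    apply strictMonoOn_sol D.ρpos hκ h
    intro s hs
    have h1 := hI3 s ⟨hs.1, hs.2.le⟩
    have h3 : sin (φ s - θ s) = sin (φ s - θ s - 2 * π) := by rw [Real.sin_sub_two_pi]
    rw [h3]
    exact Real.sin_pos_of_pos_of_lt_pi (by linarith) (by linarith)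
  have hlast : θ (τ₁ + T) ≤ α := hle τ₁ ⟨hτ01.le, by linarith [ht₁.2]⟩
  -- ranges
  have hR1 : ∀ t ∈ Icc τ₁ τ₂, α ≤ θ t ∧ θ t ≤ θ t₁ := by
    intro t ht
    rcases le_total t t₁ with h1 | h1
    · have m1 : τ₁ ∈ Icc t₀ t₁ := ⟨hτ01.le, hτ11.le⟩
      have m2 : t ∈ Icc t₀ t₁ := ⟨hτ01.le.trans ht.1, h1⟩
      exact ⟨hm1.monotoneOn m1 m2 ht.1, hm1.monotoneOn m2 (right_mem_Icc.2 ht₁.1.le) h1⟩
    · have m1 : τ₂ ∈ Icc t₁ t₂ := ⟨hτ12.le, hτ22.le⟩
      have m2 : t ∈ Icc t₁ t₂ := ⟨h1, ht.2.trans hτ22.le⟩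
      refine ⟨?_, hm2.antitoneOn (left_mem_Icc.2 ht12.le) m2 h1⟩
      rw [← hα2]
      exact hm2.antitoneOn m2 m1 ht.2
  have hR2 : ∀ t ∈ Icc τ₂ (τ₁ + T), θ t₂ ≤ θ t ∧ θ t ≤ α := by
    intro t ht
    rcases le_total t t₂ with h1 | h1
    · have m1 : τ₂ ∈ Icc t₁ t₂ := ⟨hτ12.le, hτ22.le⟩
      have m2 : t ∈ Icc t₁ t₂ := ⟨hτ12.le.trans ht.1, h1⟩
      refine ⟨hm2.antitoneOn m2 (right_mem_Icc.2 ht12.le) h1, ?_⟩
      rw [← hα2]
      exact hm2.antitoneOn m1 m2 ht.1
    · have m2 : t ∈ Icc t₂ (τ₁ + T) := ⟨h1, ht.2⟩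
      refine ⟨hm3.monotoneOn (left_mem_Icc.2 ht2T.le) m2 h1, ?_⟩
      exact (hm3.monotoneOn m2 (right_mem_Icc.2 ht2T.le) ht.2).trans hlast
  have hrange : ∀ t ∈ Icc τ₁ (τ₁ + T), 0 < f - θ t ∧ f - θ t < π := by
    intro t ht
    rcases le_total t τ₂ with h1 | h1
    · have := hR1 t ⟨ht.1, h1⟩
      constructor <;> linarith [hf.1, hf.2]
    · have := hR2 t ⟨h1, ht.2⟩
      constructor <;> linarith [hf.1, hf.2]
  -- the monotone quantity
  set W : ℝ → ℝ := fun t => (Y t * cos α - X t * sin α) -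
    κ⁻¹ * sin (f - α) * (log (cos ((f - θ t) / 2)) - log (sin ((f - θ t) / 2))) with hW
  have hWd : ∀ t ∈ Icc τ₁ (τ₁ + T), HasDerivAt W
      (-(ρ t * (sin (φ t - f) * sin (θ t - α)) / sin (f - θ t))) t := by
    intro t ht
    obtain ⟨hr1, hr2⟩ := hrange t ht
    have hsp : 0 < sin (f - θ t) := Real.sin_pos_of_pos_of_lt_pi hr1 hr2
    have h1 := ((D.hY t).mul_const (cos α)).sub ((D.hX t).mul_const (sin α))
    have h2 := ((hasDerivAt_logtan hr1 hr2).comp t (h t)).const_mul (κ⁻¹ * sin (f - α))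
    refine (h1.sub h2).congr_deriv ?_
    have h3 := trig_id (φ t) (θ t) α f
    have h4 : ρ t * sin (φ t) * cos α - ρ t * cos (φ t) * sin α = ρ t * sin (φ t - α) := by
      rw [Real.sin_sub]; ring
    rw [h4]
    field_simp
    linear_combination (ρ t) * h3
  have hWle : ∀ t ∈ Icc τ₁ (τ₁ + T),
      -(ρ t * (sin (φ t - f) * sin (θ t - α)) / sin (f - θ t)) ≤ 0 := by
    intro t ht
    obtain ⟨hr1, hr2⟩ := hrange t ht
    have hsp : 0 < sin (f - θ t) := Real.sin_pos_of_pos_of_lt_pi hr1 hr2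
    rw [neg_nonpos]
    apply div_nonneg _ hsp.le
    apply mul_nonneg (D.ρpos t).le
    rcases le_total t τ₂ with h1 | h1
    · have h2 := hR1 t ⟨ht.1, h1⟩
      have h3 : f ≤ φ t := by rw [← hφτ1]; exact D.mono.monotone ht.1
      have h4 : φ t ≤ f + π := by rw [← hφτ2]; exact D.mono.monotone h1
      apply mul_nonneg
      · exact Real.sin_nonneg_of_nonneg_of_le_pi (by linarith) (by linarith)
      · exact Real.sin_nonneg_of_nonneg_of_le_pi (by linarith) (by linarith [hf.1])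
    · have h2 := hR2 t ⟨h1, ht.2⟩
      have h3 : f + π ≤ φ t := by rw [← hφτ2]; exact D.mono.monotone h1
      have h4 : φ t ≤ f + 2 * π := by
        have := D.mono.monotone ht.2
        rw [D.φper, hφτ1] at this
        exact this
      apply mul_nonneg_of_nonpos_of_nonpos
      · have h5 : sin (φ t - f) = -sin (φ t - f - π) := by rw [Real.sin_sub_pi]; ring
        rw [h5, neg_nonpos]
        exact Real.sin_nonneg_of_nonneg_of_le_pi (by linarith) (by linarith)
      · have h5 : sin (θ t - α) = -sin (α - θ t) := by rw [← Real.sin_neg]; congr 1; ring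
        rw [h5, neg_nonpos]
        exact Real.sin_nonneg_of_nonneg_of_le_pi (by linarith) (by linarith [hf.1, hf.2])
  have hWanti : AntitoneOn W (Icc τ₁ (τ₁ + T)) := by
    apply antitoneOn_of_deriv_nonpos (convex_Icc _ _)
    · exact fun t ht => (hWd t ht).continuousAt.continuousWithinAt
    · intro t ht
      exact (hWd t (interior_subset ht)).differentiableAt.differentiableWithinAt
    · intro t ht
      rw [(hWd t (interior_subset ht)).deriv]
      exact hWle t (interior_subset ht)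
  have hTT : τ₁ < τ₁ + T := by linarith
  have hmem1 : t₁ ∈ Ioo τ₁ (τ₁ + T) := ⟨hτ11, by linarith [ht₁.2]⟩
  have hstrict : W (τ₁ + T) < W τ₁ := by
    rcases (hWanti (left_mem_Icc.2 hTT.le) (right_mem_Icc.2 hTT.le) hTT.le).lt_or_eq with h1 | h1
    · exact h1
    · exfalso
      have hz : ∀ t ∈ Icc τ₁ (τ₁ + T), W t = W τ₁ := by
        intro t ht
        apply le_antisymm
        · exact hWanti (left_mem_Icc.2 hTT.le) ht ht.1
        · rw [← h1]; exact hWanti ht (right_mem_Icc.2 hTT.le) ht.2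
      have h2 : HasDerivAt W 0 t₁ := by
        apply (hasDerivAt_const t₁ (W τ₁)).congr_of_eventuallyEq
        filter_upwards [Ioo_mem_nhds hmem1.1 hmem1.2] with s hs
        exact hz s ⟨hs.1.le, hs.2.le⟩
      have h3 := h2.unique (hWd t₁ ⟨hmem1.1.le, hmem1.2.le⟩)
      obtain ⟨hr1, hr2⟩ := hrange t₁ ⟨hmem1.1.le, hmem1.2.le⟩
      have hsp : 0 < sin (f - θ t₁) := Real.sin_pos_of_pos_of_lt_pi hr1 hr2
      have h5 : f < φ t₁ := by rw [← hφτ1]; exact D.mono hτ11
      have h6 : φ t₁ < f + π := by rw [← hφτ2]; exact D.mono hτ12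
      have h7 : 0 < sin (φ t₁ - f) := Real.sin_pos_of_pos_of_lt_pi (by linarith) (by linarith)
      have h8 : 0 < sin (θ t₁ - α) :=
        Real.sin_pos_of_pos_of_lt_pi (by linarith) (by linarith [hf.1])
      have h9 := D.ρpos t₁
      have h10 : 0 < ρ t₁ * (sin (φ t₁ - f) * sin (θ t₁ - α)) / sin (f - θ t₁) := by positivity
      linarith
  -- contradiction
  have hlogmono : log (cos ((f - θ (τ₁ + T)) / 2)) - log (sin ((f - θ (τ₁ + T)) / 2)) ≤
      log (cos ((f - α) / 2)) - log (sin ((f - α) / 2)) := by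
    have hA := hrange (τ₁ + T) (right_mem_Icc.2 hTT.le)
    have hB := hrange τ₁ (left_mem_Icc.2 hTT.le)
    rw [← hα] at hB
    have m : MonotoneOn (fun x => log (cos ((f - x) / 2)) - log (sin ((f - x) / 2)))
        (Icc (θ (τ₁ + T)) α) := by
      apply monotoneOn_of_deriv_nonneg (convex_Icc _ _)
      · intro x hx
        exact (hasDerivAt_logtan (f := f) (by linarith [hx.2]) (by linarith [hx.1])).continuousAt.continuousWithinAt
      · intro x hx
        have hx := interior_subset hx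
        exact (hasDerivAt_logtan (f := f) (by linarith [hx.2]) (by linarith [hx.1])).differentiableAt.differentiableWithinAt
      · intro x hx
        have hx := interior_subset hx
        rw [(hasDerivAt_logtan (f := f) (by linarith [hx.2]) (by linarith [hx.1])).deriv]
        have : 0 < sin (f - x) :=
          Real.sin_pos_of_pos_of_lt_pi (by linarith [hx.2]) (by linarith [hx.1])
        positivity
    exact m (left_mem_Icc.2 hlast) (right_mem_Icc.2 hlast) hlast
  have hfα : 0 < sin (f - α) :=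
    Real.sin_pos_of_pos_of_lt_pi (by linarith [hf.1]) (by linarith [hf.2])
  have hcoef : 0 < κ⁻¹ * sin (f - α) := by positivity
  have h1 : κ⁻¹ * sin (f - α) *
        (log (cos ((f - θ (τ₁ + T)) / 2)) - log (sin ((f - θ (τ₁ + T)) / 2))) ≤
      κ⁻¹ * sin (f - α) * (log (cos ((f - α) / 2)) - log (sin ((f - α) / 2))) :=
    mul_le_mul_of_nonneg_left hlogmono hcoef.le
  simp only [hW] at hstrict
  rw [D.Xper, D.Yper, ← hα] at hstrict
  linarith

/-- Every solution gains angle over one period. -/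
theorem gain_pos (D : Data T ρ φ k X Y) (hκ : 0 < κ) (h : Sol κ ρ φ θ) : θ 0 < θ T := by
  by_contra hcon
  push Not at hcon
  have hT := D.Tpos
  have hpi := Real.pi_pos
  have hφc := D.φcont
  have hθc := h.cont
  have hωc : Continuous fun t => φ t - θ t := by fun_prop
  have hord : ∀ t, 0 ≤ t → θ (t + T) ≤ θ t := by
    intro t ht
    exact Sol.ordered D.ρcont hφc (h.shift D) h ht (by simpa using hcon)
  have hTT : φ T - θ T ≥ φ 0 - θ 0 + 2 * π := by
    have := D.φper 0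
    rw [zero_add] at this
    rw [this]; linarith
  set m : ℤ := ⌈(φ 0 - θ 0) / (2 * π)⌉ with hm
  have h2pi : 0 < 2 * π := by positivity
  have hm1 : φ 0 - θ 0 ≤ m * (2 * π) := by
    have := Int.le_ceil ((φ 0 - θ 0) / (2 * π))
    rwa [div_le_iff₀ h2pi] at this
  have hm2 : m * (2 * π) ≤ φ 0 - θ 0 + 2 * π := by
    have := (Int.ceil_lt_add_one ((φ 0 - θ 0) / (2 * π))).le
    rw [← hm] at this
    have h3 := mul_le_mul_of_nonneg_right this h2pi.le
    have h4 : ((φ 0 - θ 0) / (2 * π) + 1) * (2 * π) = φ 0 - θ 0 + 2 * π := by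
      field_simp
    linarith
  obtain ⟨t₀, ht₀, hx⟩ := intermediate_value_Icc hT.le hωc.continuousOn
    (⟨hm1, by linarith⟩ : (m * (2 * π) : ℝ) ∈ Icc (φ 0 - θ 0) (φ T - θ T))
  simp only at hx
  refine core D hκ (h.add_int m) (t₀ := t₀) (by linarith) ?_
  intro t ht
  have := hord t (ht₀.1.trans ht.1)
  linarith

end Pool.Agent.K9h93.Bike
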