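import Mathlib
import Pool.Agent.K9h93.Bike.Ode

set_option autoImplicit false

open Set Topology Real

namespace Pool.Agent.K9h93.Bike

/-- a solution of the scalar equation gives a solution of the linear system -/
lemma linear_of_scalar {p q θ : ℝ → ℝ} (hp : Continuous p) (hq : Continuous q)
    (h : ∀ t, HasDerivAt θ (2 * (q t * cos (θ t) - p t * sin (θ t))) t) :
    ∃ r : ℝ → ℝ, r 0 = 1 ∧ (∀ t, 0 < r t) ∧
      (∀ t, HasDerivAt (fun t => r t * cos (θ t / 2))
        (p t * (r t * cos (θ t / 2)) + q t * (r t * sin (θ t / 2))) t) ∧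
      (∀ t, HasDerivAt (fun t => r t * sin (θ t / 2))
        (q t * (r t * cos (θ t / 2)) - p t * (r t * sin (θ t / 2))) t) := by
  have hθc : Continuous θ := continuous_iff_continuousAt.2 fun t => (h t).continuousAt
  have hc : Continuous fun t => p t * cos (θ t) + q t * sin (θ t) := by fun_prop
  let H : ℝ → ℝ := fun s => ∫ u in (0:ℝ)..s, (p u * cos (θ u) + q u * sin (θ u))
  have hH : ∀ s, HasDerivAt H (p s * cos (θ s) + q s * sin (θ s)) s := fun s =>
    (hc.integral_hasStrictDerivAt 0 s).hasDerivAt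
  have h2 : ∀ t, HasDerivAt (fun t => θ t / 2) (q t * cos (θ t) - p t * sin (θ t)) t := by
    intro t
    refine ((h t).div_const 2).congr_deriv ?_
    ring
  have hdouble : ∀ t, cos (θ t) = cos (θ t / 2) ^ 2 - sin (θ t / 2) ^ 2 ∧
      sin (θ t) = 2 * sin (θ t / 2) * cos (θ t / 2) := by
    intro t
    constructor
    · rw [← Real.cos_two_mul']; congr 1; ring
    · rw [← Real.sin_two_mul]; congr 1; ring
  refine ⟨fun t => Real.exp (H t), by simp [H], fun t => Real.exp_pos _, fun t => ?_, fun t => ?_⟩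
  · refine ((hH t).exp.mul (h2 t).cos).congr_deriv ?_
    obtain ⟨e1, e2⟩ := hdouble t
    have e3 := Real.sin_sq_add_cos_sq (θ t / 2)
    rw [e1, e2]
    linear_combination (Real.exp (H t) * (p t * cos (θ t / 2) + q t * sin (θ t / 2))) * e3
  · refine ((hH t).exp.mul (h2 t).sin).congr_deriv ?_
    obtain ⟨e1, e2⟩ := hdouble t
    have e3 := Real.sin_sq_add_cos_sq (θ t / 2)
    rw [e1, e2]
    linear_combination (Real.exp (H t) * (q t * cos (θ t / 2) - p t * sin (θ t / 2))) * e3

/-- the Wronskian of two solutions of the linear system is constant -/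
lemma wronskian {p q u w u' w' : ℝ → ℝ}
    (hu : ∀ t, HasDerivAt u (p t * u t + q t * w t) t)
    (hw : ∀ t, HasDerivAt w (q t * u t - p t * w t) t)
    (hu' : ∀ t, HasDerivAt u' (p t * u' t + q t * w' t) t)
    (hw' : ∀ t, HasDerivAt w' (q t * u' t - p t * w' t) t) (t : ℝ) :
    u t * w' t - w t * u' t = u 0 * w' 0 - w 0 * u' 0 := by
  have hd : ∀ t, HasDerivAt (fun t => u t * w' t - w t * u' t) 0 t := by
    intro t
    refine (((hu t).mul (hw' t)).sub ((hw t).mul (hu' t))).congr_deriv ?_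
    ring
  exact is_const_of_deriv_eq_zero (fun t => (hd t).differentiableAt) (fun t => (hd t).deriv) t 0

/-- existence of the monodromy matrix -/
theorem exists_matrix {p q : ℝ → ℝ} (hp : Continuous p) (hq : Continuous q) (T : ℝ) :
    ∃ a b c d : ℝ, a * d - b * c = 1 ∧ ∀ θ : ℝ → ℝ,
      (∀ t, HasDerivAt θ (2 * (q t * cos (θ t) - p t * sin (θ t))) t) → ∃ r > 0,
        a * cos (θ 0 / 2) + b * sin (θ 0 / 2) = r * cos (θ T / 2) ∧
        c * cos (θ 0 / 2) + d * sin (θ 0 / 2) = r * sin (θ T / 2) := by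
  have hex : ∀ x : ℝ, ∃ θ : ℝ → ℝ, θ 0 = x ∧
      ∀ t, HasDerivAt θ (2 * (q t * cos (θ t) - p t * sin (θ t))) t := by
    intro x
    obtain ⟨θ, h0, h1⟩ := exists_solution (A := fun t => -2 * p t) (B := fun t => 2 * q t)
      (by fun_prop) (by fun_prop) x
    exact ⟨θ, h0, fun t => (h1 t).congr_deriv (by ring)⟩
  obtain ⟨θ₁, h10, h1⟩ := hex 0
  obtain ⟨θ₂, h20, h2⟩ := hex π
  obtain ⟨r₁, r10, r1p, u1, w1⟩ := linear_of_scalar hp hq h1
  obtain ⟨r₂, r20, r2p, u2, w2⟩ := linear_of_scalar hp hq h2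
  have hW := wronskian u1 w1 u2 w2 T
  simp only [h10, h20, r10, r20, zero_div, cos_zero, sin_zero, Real.cos_pi_div_two,
    Real.sin_pi_div_two] at hW
  refine ⟨r₁ T * cos (θ₁ T / 2), r₂ T * cos (θ₂ T / 2), r₁ T * sin (θ₁ T / 2),
    r₂ T * sin (θ₂ T / 2), by linarith, ?_⟩
  intro θ h
  obtain ⟨r, r0, rp, u, w⟩ := linear_of_scalar hp hq h
  refine ⟨r T, rp T, ?_, ?_⟩
  · have hA := wronskian u w u2 w2 T
    have hB := wronskian u1 w1 u w T
    simp only [h10, h20, r10, r20, r0, zero_div, cos_zero, sin_zero, Real.cos_pi_div_two,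
      Real.sin_pi_div_two] at hA hB
    linear_combination (-(r₁ T * cos (θ₁ T / 2))) * hA + (-(r₂ T * cos (θ₂ T / 2))) * hB
      + (r T * cos (θ T / 2)) * hW
  · have hA := wronskian u w u2 w2 T
    have hB := wronskian u1 w1 u w T
    simp only [h10, h20, r10, r20, r0, zero_div, cos_zero, sin_zero, Real.cos_pi_div_two,
      Real.sin_pi_div_two] at hA hB
    linear_combination (-(r₁ T * sin (θ₁ T / 2))) * hA + (-(r₂ T * sin (θ₂ T / 2))) * hB
      + (r T * sin (θ T / 2)) * hW

/-- polar coordinates -/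
lemma exists_polar {x y : ℝ} (h : ¬ (x = 0 ∧ y = 0)) :
    ∃ r > 0, ∃ s : ℝ, x = r * cos s ∧ y = r * sin s := by
  have hz : (⟨x, y⟩ : ℂ) ≠ 0 := by
    intro hz
    apply h
    exact ⟨congrArg Complex.re hz, congrArg Complex.im hz⟩
  refine ⟨‖(⟨x, y⟩ : ℂ)‖, norm_pos_iff.2 hz, Complex.arg ⟨x, y⟩, ?_, ?_⟩
  · rw [Complex.norm_mul_cos_arg]
  · rw [Complex.norm_mul_sin_arg]

/-- elliptic criterion -/
lemma trace_elliptic {a b c d : ℝ} (hdet : a * d - b * c = 1)
    (h : ∀ s : ℝ, 0 < cos s * (c * cos s + d * sin s) - sin s * (a * cos s + b * sin s)) :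
    |a + d| < 2 := by
  have hc : 0 < c := by simpa using h 0
  have hne : ¬ (-(d - a) = 0 ∧ 2 * c = 0) := by
    rintro ⟨-, h2⟩; linarith
  obtain ⟨r, hr, s, hx, hy⟩ := exists_polar hne
  have h1 := h s
  have h2 : 0 < r ^ 2 * (cos s * (c * cos s + d * sin s) - sin s * (a * cos s + b * sin s)) := by
    positivity
  have h3 : r ^ 2 * (cos s * (c * cos s + d * sin s) - sin s * (a * cos s + b * sin s)) =
      c * (r * cos s) ^ 2 + (d - a) * (r * cos s) * (r * sin s) - b * (r * sin s) ^ 2 := by ring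
  rw [h3, ← hx, ← hy] at h2
  have h4 : 0 < c * (4 - (a + d) ^ 2) := by
    nlinarith
  have h5 : 0 < 4 - (a + d) ^ 2 := pos_of_mul_pos_right h4 hc.le
  rw [abs_lt]
  constructor <;> nlinarith

/-- hyperbolic criterion -/
lemma trace_hyperbolic {a b c d : ℝ} (hdet : a * d - b * c = 1) {s s' : ℝ}
    (h : 0 < cos s * (c * cos s + d * sin s) - sin s * (a * cos s + b * sin s))
    (h' : cos s' * (c * cos s' + d * sin s') - sin s' * (a * cos s' + b * sin s') < 0) :
    2 < |a + d| := by
  by_contra hcon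
  push Not at hcon
  have h1 := abs_le.1 hcon
  have hd : (d - a) ^ 2 + 4 * b * c ≤ 0 := by nlinarith
  have key : ∀ x y : ℝ, 0 ≤ 4 * c * (c * x ^ 2 + (d - a) * x * y - b * y ^ 2) := by
    intro x y
    nlinarith [sq_nonneg (2 * c * x + (d - a) * y), sq_nonneg y,
      mul_nonneg (neg_nonneg.2 hd) (sq_nonneg y)]
  have k1 := key (cos s) (sin s)
  have k2 := key (cos s') (sin s')
  have e1 : cos s * (c * cos s + d * sin s) - sin s * (a * cos s + b * sin s) =
      c * cos s ^ 2 + (d - a) * cos s * sin s - b * sin s ^ 2 := by ring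
  have e2 : cos s' * (c * cos s' + d * sin s') - sin s' * (a * cos s' + b * sin s') =
      c * cos s' ^ 2 + (d - a) * cos s' * sin s' - b * sin s' ^ 2 := by ring
  rw [e1] at h
  rw [e2] at h'
  have hc1 : 0 ≤ c := by
    by_contra hneg
    push Not at hneg
    nlinarith
  have hc2 : c ≤ 0 := by
    by_contra hneg
    push Not at hneg
    nlinarith
  have hc : c = 0 := le_antisymm hc2 hc1
  subst hc
  have hda : d - a = 0 := by
    have : (d - a) ^ 2 ≤ 0 := by simpa using hd
    exact pow_eq_zero_iff (two_ne_zero) |>.1 (le_antisymm this (sq_nonneg _))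
  rw [hda] at h h'
  have h3 : 0 < -b * sin s ^ 2 := by linarith
  have h4 : -b * sin s' ^ 2 < 0 := by linarith
  have hb : 0 < -b := pos_of_mul_pos_left h3 (sq_nonneg _)
  have := mul_nonneg hb.le (sq_nonneg (sin s'))
  linarith

/-- two determinant-one lifts of the same projective map agree up to sign -/
lemma lift_unique {a b c d e f g h : ℝ} (h1 : a * d - b * c = 1) (h2 : e * h - f * g = 1)
    (k1 : a * g - c * e = 0) (k2 : b * h - d * f = 0)
    (k3 : (a + b) * (g + h) - (c + d) * (e + f) = 0) : |e + h| = |a + d| := by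
  set l := e * d - g * b with hl
  have e1 : e = l * a := by
    rw [hl]
    linear_combination (-e) * h1 + b * k1
  have e2 : g = l * c := by
    rw [hl]
    linear_combination (-g) * h1 + d * k1
  set m := a * h - c * f with hm
  have e3 : f = m * b := by
    rw [hm]
    linear_combination (-f) * h1 - a * k2
  have e4 : h = m * d := by
    rw [hm]
    linear_combination (-h) * h1 - c * k2
  have e5 : m = l := by
    have : (a + b) * (l * c + m * d) - (c + d) * (l * a + m * b) = m - l := by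
      linear_combination (m - l) * h1
    rw [e2, e4, e1, e3] at k3
    linarith
  have e6 : l * l = 1 := by
    rw [e1, e4, e3, e2, e5] at h2
    linear_combination h2 - (l * l) * h1
  have e7 : l = 1 ∨ l = -1 := by
    have : (l - 1) * (l + 1) = 0 := by linear_combination e6
    rcases mul_eq_zero.1 this with h | h
    · left; linarith
    · right; linarith
  rw [e1, e4, e5]
  rcases e7 with h | h
  · rw [h]; simp
  · rw [h, ← abs_neg]; congr 1; ring

end Pool.Agent.K9h93.Bike
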