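import Mathlib
import Pool.Agent.K9h93.Bike.Key

set_option autoImplicit false

open Set Topology Real

namespace Pool.Agent.K9h93.Bike

variable {T κ : ℝ} {ρ φ k X Y θ : ℝ → ℝ}

lemma exists_sol (D : Data T ρ φ k X Y) (κ x : ℝ) : ∃ θ, θ 0 = x ∧ Sol κ ρ φ θ := by
  have hρ := D.ρcont
  have hφ := D.φcont
  obtain ⟨θ, h0, h1⟩ := exists_solution (A := fun t => -(κ * ρ t * cos (φ t)))
    (B := fun t => κ * ρ t * sin (φ t)) (by fun_prop) (by fun_prop) x
  refine ⟨θ, h0, fun t => (h1 t).congr_deriv ?_⟩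
  rw [Real.sin_sub]; ring

/-- no solution gains `3π` or more over one period. -/
lemma gain_lt (D : Data T ρ φ k X Y) (h : Sol κ ρ φ θ) : θ T < θ 0 + 3 * π := by
  have hpi := Real.pi_pos
  set m : ℤ := ⌊(φ 0 - θ 0) / π⌋ with hm
  have hm1 : m * π ≤ φ 0 - θ 0 := by
    have := Int.floor_le ((φ 0 - θ 0) / π)
    rwa [le_div_iff₀ hpi] at this
  have hm2 : φ 0 - θ 0 < m * π + π := by
    have := Int.lt_floor_add_one ((φ 0 - θ 0) / π)
    rw [div_lt_iff₀ hpi] at this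
    linarith
  have h1 := h.cross D m D.Tpos hm1
  have h2 := D.φper 0
  rw [zero_add] at h2
  linarith

/-- some solution gains less than `2π`. -/
lemma exists_gain_lt (D : Data T ρ φ k X Y) (κ : ℝ) :
    ∃ θ, Sol κ ρ φ θ ∧ θ T < θ 0 + 2 * π := by
  obtain ⟨θ, h0, h1⟩ := exists_sol D κ (φ 0)
  refine ⟨θ, h1, ?_⟩
  have h2 := h1.cross D 0 D.Tpos (by simp [h0])
  have h3 := D.φper 0
  rw [zero_add] at h3
  push_cast at h2
  linarith

/-- the set of parameters with a solution gaining at least `2π` -/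
def Big (T : ℝ) (ρ φ : ℝ → ℝ) : Set ℝ :=
  {κ | 0 < κ ∧ ∃ θ, Sol κ ρ φ θ ∧ θ 0 + 2 * π ≤ θ T}

/-- if a solution gains at least `2π` then `sin (φ - θ) > 0` along it -/
lemma sin_pos_of_big (D : Data T ρ φ k X Y) (hκ : 0 < κ) (h : Sol κ ρ φ θ)
    (hb : θ 0 + 2 * π ≤ θ T) : ∀ t ∈ Ioo 0 T, 0 < sin (φ t - θ t) := by
  have hpi := Real.pi_pos
  have hT := D.Tpos
  have hle : φ T - θ T ≤ φ 0 - θ 0 := by
    have h2 := D.φper 0
    rw [zero_add] at h2
    linarith
  set m : ℤ := ⌊(φ 0 - θ 0) / π⌋ with hm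
  have hm1 : m * π ≤ φ 0 - θ 0 := by
    have := Int.floor_le ((φ 0 - θ 0) / π)
    rwa [le_div_iff₀ hpi] at this
  have hm2 : φ 0 - θ 0 < m * π + π := by
    have := Int.lt_floor_add_one ((φ 0 - θ 0) / π)
    rw [div_lt_iff₀ hpi] at this
    linarith
  have hin : ∀ t ∈ Ioo 0 T, m * π < φ t - θ t ∧ φ t - θ t < m * π + π := by
    intro t ht
    refine ⟨h.cross D m ht.1 hm1, ?_⟩
    by_contra hcon
    push Not at hcon
    have := h.cross D (m + 1) ht.2 (by push_cast; linarith)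
    push_cast at this
    linarith
  have hsin : ∀ t ∈ Ioo 0 T, 0 < sin (φ t - θ t - m * π) := by
    intro t ht
    have := hin t ht
    exact Real.sin_pos_of_pos_of_lt_pi (by linarith) (by linarith)
  have hdec : ∀ t, sin (φ t - θ t) = sin (φ t - θ t - m * π) * cos (m * π) := by
    intro t
    have : φ t - θ t = (φ t - θ t - m * π) + m * π := by ring
    conv_lhs => rw [this, Real.sin_add, Real.sin_int_mul_pi]
    ring
  rcases Int.even_or_odd m with he | ho
  · have hc : cos (m * π) = 1 := by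
      obtain ⟨j, hj⟩ := he
      have : (m : ℝ) * π = j * (2 * π) := by rw [hj]; push_cast; ring
      rw [this, Real.cos_int_mul_two_pi]
    intro t ht
    rw [hdec, hc, mul_one]
    exact hsin t ht
  · exfalso
    have hc : cos (m * π) = -1 := by
      obtain ⟨j, hj⟩ := ho
      have : (m : ℝ) * π = π + j * (2 * π) := by rw [hj]; push_cast; ring
      rw [this, Real.cos_add_int_mul_two_pi, Real.cos_pi]
    have hmono : StrictMonoOn (fun t => φ t - θ t) (Icc 0 T) := by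
      have hφc := D.φcont
      have hθc := h.cont
      apply strictMonoOn_of_deriv_pos (convex_Icc _ _) (by fun_prop)
      intro t ht
      rw [interior_Icc] at ht
      have hd : HasDerivAt (fun t => φ t - θ t) (k t - κ * ρ t * sin (φ t - θ t)) t :=
        (D.hφ t).sub (h t)
      rw [hd.deriv, hdec, hc]
      have h1 := hsin t ht
      have h2 := D.k_nonneg t
      have h3 := D.ρpos t
      have h4 : 0 < κ * ρ t * sin (φ t - θ t - m * π) := by positivity
      linarith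
    have := hmono (left_mem_Icc.2 hT.le) (right_mem_Icc.2 hT.le) hT
    simp only at this
    linarith

/-- beyond a parameter in `Big`, some solution gains strictly more than `2π` -/
lemma big_up (D : Data T ρ φ k X Y) (hκ : κ ∈ Big T ρ φ) {κ' : ℝ} (hlt : κ < κ') :
    ∃ θ, Sol κ' ρ φ θ ∧ θ 0 + 2 * π < θ T := by
  obtain ⟨h0, θ, h1, h2⟩ := hκ
  obtain ⟨θ', h3, h4⟩ := exists_sol D κ' (θ 0)
  refine ⟨θ', h4, ?_⟩
  have := Sol.compare D.ρcont D.φcont D.ρpos hlt h1 h4 D.Tpos (by rw [h3])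
    (sin_pos_of_big D h0 h1 h2)
  rw [h3]; linarith

lemma big_nonempty (D : Data T ρ φ k X Y) : (Big T ρ φ).Nonempty := by
  have hpi := Real.pi_pos
  have hT := D.Tpos
  have hρ := D.ρcont
  have hk := D.kcont
  have hq : ContinuousOn (fun t => k t / ρ t) (Icc 0 T) :=
    (hk.div hρ (fun t => (D.ρpos t).ne')).continuousOn
  obtain ⟨C, hC⟩ := isCompact_Icc.bddAbove_image hq
  set κ := max C 1 with hκ
  have hκ0 : 0 < κ := lt_of_lt_of_le one_pos (le_max_right _ _)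
  have hle : ∀ t ∈ Icc 0 T, k t ≤ κ * ρ t := by
    intro t ht
    have h1 : k t / ρ t ≤ κ := (hC (mem_image_of_mem _ ht)).trans (le_max_left _ _)
    rwa [div_le_iff₀ (D.ρpos t)] at h1
  obtain ⟨θ, h0, h1⟩ := exists_sol D κ (φ 0 - π / 2)
  refine ⟨κ, hκ0, θ, h1, ?_⟩
  have hφc := D.φcont
  have hθc := h1.cont
  have h2 := lin_nonneg (y := fun t => θ t - φ t + π / 2) (g := fun t => κ * ρ t - k t)
    (h := fun t => κ * ρ t * Real.sinc ((θ t - φ t + π / 2) / 2) * sin ((θ t - φ t + π / 2) / 2))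
    hT.le (by fun_prop) ?_ (fun t ht => by have := hle t ⟨ht.1.le, ht.2.le⟩; linarith)
    (by rw [h0]; linarith)
  · have h3 := D.φper 0
    rw [zero_add] at h3
    linarith
  · intro t
    refine (((h1 t).sub (D.hφ t)).add_const _).congr_deriv ?_
    have e1 : sin (φ t - θ t) = cos (θ t - φ t + π / 2) := by
      rw [Real.cos_add_pi_div_two, ← Real.sin_neg]; congr 1; ring
    have e2 : cos (θ t - φ t + π / 2) = 1 - 2 * sin ((θ t - φ t + π / 2) / 2) ^ 2 := by
      have h3 := Real.cos_two_mul ((θ t - φ t + π / 2) / 2)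
      have h4 := Real.sin_sq_add_cos_sq ((θ t - φ t + π / 2) / 2)
      have h5 : 2 * ((θ t - φ t + π / 2) / 2) = θ t - φ t + π / 2 := by ring
      rw [h5] at h3
      linarith
    have e3 := sin_eq_sinc ((θ t - φ t + π / 2) / 2)
    have e4 : 2 * sin ((θ t - φ t + π / 2) / 2) ^ 2 =
        Real.sinc ((θ t - φ t + π / 2) / 2) * sin ((θ t - φ t + π / 2) / 2) *
          (θ t - φ t + π / 2) := by
      rw [sq]
      nth_rewrite 1 [e3]
      ring
    rw [e1, e2, e4]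
    ring

lemma big_lower (D : Data T ρ φ k X Y) : ∃ c > 0, ∀ κ ∈ Big T ρ φ, c ≤ κ := by
  have hpi := Real.pi_pos
  have hT := D.Tpos
  have hρ := D.ρcont
  obtain ⟨C, hC⟩ := isCompact_Icc.bddAbove_image (hρ.continuousOn (s := Icc 0 T))
  have hC0 : 0 < C := lt_of_lt_of_le (D.ρpos 0)
    (hC (mem_image_of_mem _ (left_mem_Icc.2 hT.le)))
  refine ⟨2 * π / (C * T), by positivity, ?_⟩
  rintro κ ⟨h0, θ, h1, h2⟩
  rw [div_le_iff₀ (by positivity)]
  have h3 : ‖θ T - θ 0‖ ≤ κ * C * (T - 0) := by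
    apply norm_image_sub_le_of_norm_deriv_le_segment' (f' := fun t => κ * ρ t * sin (φ t - θ t))
      (fun t _ => (h1 t).hasDerivWithinAt) ?_ T (right_mem_Icc.2 hT.le)
    intro t ht
    rw [norm_mul, norm_mul, Real.norm_eq_abs, Real.norm_eq_abs, Real.norm_eq_abs,
      abs_of_pos h0, abs_of_pos (D.ρpos t)]
    have h4 : ρ t ≤ C := hC (mem_image_of_mem _ ⟨ht.1, ht.2.le⟩)
    have h5 := Real.abs_sin_le_one (φ t - θ t)
    have h6 := D.ρpos t
    calc κ * ρ t * |sin (φ t - θ t)| ≤ κ * ρ t * 1 := by gcongr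
      _ = κ * ρ t := mul_one _
      _ ≤ κ * C := by gcongr
  rw [Real.norm_eq_abs] at h3
  have h4 := le_abs_self (θ T - θ 0)
  nlinarith

/-- The dichotomy for the gain of the solutions. -/
theorem threshold (D : Data T ρ φ k X Y) : ∃ κ₀ > 0,
    (∀ κ, 0 < κ → κ < κ₀ → ∀ θ, Sol κ ρ φ θ → 0 < θ T - θ 0 ∧ θ T - θ 0 < 2 * π) ∧
    (∀ κ, κ₀ < κ → (∃ θ, Sol κ ρ φ θ ∧ 0 < θ T - θ 0 ∧ θ T - θ 0 < 2 * π) ∧
      ∃ θ, Sol κ ρ φ θ ∧ 2 * π < θ T - θ 0 ∧ θ T - θ 0 < 3 * π) := by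
  obtain ⟨c, hc, hcb⟩ := big_lower D
  have hne := big_nonempty D
  have hbdd : BddBelow (Big T ρ φ) := ⟨c, hcb⟩
  have hκ0 : c ≤ sInf (Big T ρ φ) := le_csInf hne hcb
  refine ⟨sInf (Big T ρ φ), lt_of_lt_of_le hc hκ0, ?_, ?_⟩
  · intro κ h0 hlt θ hθ
    have h1 := gain_pos D h0 hθ
    refine ⟨by linarith, ?_⟩
    by_contra hcon
    push Not at hcon
    have : κ ∈ Big T ρ φ := ⟨h0, θ, hθ, by linarith⟩
    exact absurd (csInf_le hbdd this) (not_le.2 hlt)
  · intro κ hlt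
    obtain ⟨κ₁, hκ₁, hlt1⟩ := exists_lt_of_csInf_lt hne hlt
    have h0 : 0 < κ := lt_trans hκ₁.1 hlt1
    constructor
    · obtain ⟨θ, h1, h2⟩ := exists_gain_lt D κ
      have h3 := gain_pos D h0 h1
      exact ⟨θ, h1, by linarith, by linarith⟩
    · obtain ⟨θ, h1, h2⟩ := big_up D hκ₁ hlt1
      have h3 := gain_lt D h1
      exact ⟨θ, h1, by linarith, by linarith⟩

end Pool.Agent.K9h93.Bike
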